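import Pool.Agent.W845.GL.Stm

set_option autoImplicit false

namespace Pool.Agent.W284.GL

open Pool.Agent.W845.GL
open Finset

lemma wt_nonneg {X : Type} (W : X → X → ℝ) (hW : ∀ x y, 0 ≤ W x y ∧ W x y ≤ 1) {n : ℕ}
    (x : Fin n → X) (e : Fin n × Fin n → Bool) : 0 ≤ wt W x e := by
  unfold wt
  refine Finset.prod_nonneg fun q _ => ?_
  split_ifs
  · exact (hW _ _).1
  · linarith [(hW (x q.1) (x q.2)).2]

lemma EX_mono {X : Type} [Fintype X] (W : X → X → ℝ) (hW : ∀ x y, 0 ≤ W x y ∧ W x y ≤ 1) {n : ℕ}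
    (Φ Ψ : (Fin n × Fin n → Bool) → ℝ) (h : ∀ e, Φ e ≤ Ψ e) : EX W Φ ≤ EX W Ψ := by
  unfold EX
  refine div_le_div_of_nonneg_right ?_ (by positivity)
  refine Finset.sum_le_sum fun x _ => Finset.sum_le_sum fun e _ => ?_
  exact mul_le_mul_of_nonneg_left (h e) (wt_nonneg W hW x e)

lemma EX_one (h0 : S_R0) {X : Type} [Fintype X] [Nonempty X] (W : X → X → ℝ) (n : ℕ) :
    EX W (fun _ : Fin n × Fin n → Bool => (1 : ℝ)) = 1 := by
  unfold EX
  have h : ∀ x : Fin n → X, ∑ e : Fin n × Fin n → Bool, wt W x e * (1 : ℝ) = 1 := by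
    intro x
    have h1 := h0 X W n x ∅
    simp only [Finset.prod_empty] at h1
    exact h1
  rw [Finset.sum_congr rfl fun x _ => h x, Finset.sum_const, Finset.card_univ, nsmul_eq_mul,
    mul_one, Fintype.card_fun, Fintype.card_fin]
  push_cast
  exact div_self (pow_ne_zero _ (by exact_mod_cast Fintype.card_ne_zero))

lemma EX_sum {X : Type} [Fintype X] (W : X → X → ℝ) {n : ℕ} {ι : Type*} (s : Finset ι)
    (f : ι → (Fin n × Fin n → Bool) → ℝ) (c : ι → ℝ) :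
    EX W (fun e => ∑ i ∈ s, f i e / c i) = ∑ i ∈ s, EX W (f i) / c i := by
  unfold EX
  have h : ∀ i, (∑ x : Fin n → X, ∑ e : Fin n × Fin n → Bool, wt W x e * f i e) /
      (Fintype.card X : ℝ) ^ n / c i =
      (∑ x : Fin n → X, ∑ e : Fin n × Fin n → Bool, wt W x e * (f i e / c i)) /
      (Fintype.card X : ℝ) ^ n := by
    intro i
    rw [div_div, mul_comm ((Fintype.card X : ℝ) ^ n), ← div_div]
    congr 1
    rw [Finset.sum_div]
    refine Finset.sum_congr rfl fun x _ => ?_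
    rw [Finset.sum_div]
    refine Finset.sum_congr rfl fun e _ => ?_
    rw [mul_div_assoc]
  rw [Finset.sum_congr rfl fun i _ => h i, ← Finset.sum_div]
  congr 1
  calc ∑ x : Fin n → X, ∑ e : Fin n × Fin n → Bool, wt W x e * ∑ i ∈ s, f i e / c i
      = ∑ x : Fin n → X, ∑ e : Fin n × Fin n → Bool, ∑ i ∈ s, wt W x e * (f i e / c i) := by
        simp only [Finset.mul_sum]
    _ = ∑ x : Fin n → X, ∑ i ∈ s, ∑ e : Fin n × Fin n → Bool, wt W x e * (f i e / c i) :=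
        Finset.sum_congr rfl fun x _ => Finset.sum_comm
    _ = ∑ i ∈ s, ∑ x : Fin n → X, ∑ e : Fin n × Fin n → Bool, wt W x e * (f i e / c i) :=
        Finset.sum_comm

theorem r5 : S_R0 → S_R4 → S_R5 := by
  intro h0 h4 X _ _ W hsym hW n s δ hn hδ hsum
  by_contra hcon
  push Not at hcon
  set Φ : (Fin n × Fin n → Bool) → ℝ := fun e => ∑ i ∈ s,
    ((nemb i.2 (GE e) : ℝ) / (n.descFactorial i.1 : ℝ) - tW W i.2) ^ 2 / (δ i ^ 2) with hΦ
  have h1 : ∀ e, 1 ≤ Φ e := by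
    intro e
    obtain ⟨i, hi, hlt⟩ := hcon (GE e)
    have hδi := (hδ i hi).1
    have h2 : (1 : ℝ) ≤
        ((nemb i.2 (GE e) : ℝ) / (n.descFactorial i.1 : ℝ) - tW W i.2) ^ 2 / (δ i ^ 2) := by
      rw [le_div_iff₀ (by positivity), one_mul, ← sq_abs
        ((nemb i.2 (GE e) : ℝ) / (n.descFactorial i.1 : ℝ) - tW W i.2)]
      exact pow_le_pow_left₀ hδi.le hlt.le 2
    exact h2.trans (Finset.single_le_sum
      (f := fun i : (Σ k : ℕ, SimpleGraph (Fin k)) =>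
        ((nemb i.2 (GE e) : ℝ) / (n.descFactorial i.1 : ℝ) - tW W i.2) ^ 2 / (δ i ^ 2))
      (fun j _ => by positivity) hi)
  have h2 : (1 : ℝ) ≤ EX W Φ := by
    rw [← EX_one h0 W n]
    exact EX_mono W hW _ _ h1
  have h3 : EX W Φ = ∑ i ∈ s, EX W (fun e : Fin n × Fin n → Bool =>
      ((nemb i.2 (GE e) : ℝ) / (n.descFactorial i.1 : ℝ) - tW W i.2) ^ 2) / (δ i ^ 2) :=
    EX_sum W s (fun i e =>
      ((nemb i.2 (GE e) : ℝ) / (n.descFactorial i.1 : ℝ) - tW W i.2) ^ 2) (fun i => δ i ^ 2)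
  have h5 : EX W Φ ≤ ∑ i ∈ s, (i.1 : ℝ) ^ 2 / ((n : ℝ) * δ i ^ 2) := by
    rw [h3]
    refine Finset.sum_le_sum fun i hi => ?_
    have hδi := (hδ i hi).1
    rw [← div_div]
    exact div_le_div_of_nonneg_right (h4 X W hsym hW n i.1 i.2 hn (hδ i hi).2) (by positivity)
  linarith

end Pool.Agent.W284.GL
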